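import Pool.Agent.N949.AO.Def

/-!
# Project AO2 (helper949), tasks LEN, CL, MV (helper691)
-/

set_option autoImplicit false

namespace Pool.Agent.N691.AO

open Finset Pool.Agent.N949.AO
open scoped Classical

noncomputable section

theorem len : S_LEN := by
  intro α κ K s Sl Oc on off h
  have key : ∀ c : ℕ, ∀ n, ∀ w ∈ K n, (Oc w).card = c → s * c ≤ n := by
    intro c
    induction c with
    | zero => intro n w _ _; simp
    | succ c ih =>
      intro n w hw hc
      obtain ⟨q, hq⟩ : (Oc w).Nonempty := by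
        rw [← Finset.card_pos]; omega
      obtain ⟨m, hm, hwm⟩ := h.off_K n w hw q hq
      have h1 : (Oc (off w q)).card = c := by
        rw [h.off_Oc n w hw q hq, Finset.card_erase_of_mem hq]; omega
      have h2 := ih m (off w q) hwm h1
      rw [Nat.mul_succ]
      omega
  intro n w hw
  exact key _ n w hw rfl

/-- from the ratios to the binomial coefficients -/
theorem binom_of_step (F : ℕ → ℕ) (S : ℕ) (h : ∀ i, F i * (S - i) = F (i + 1) * (i + 1)) (i : ℕ) :
    F i = S.choose i * F 0 := by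
  induction i with
  | zero => simp
  | succ i ih =>
    have h1 := h i
    rw [ih] at h1
    have h2 := Nat.choose_succ_right_eq S i
    apply Nat.eq_of_mul_eq_mul_right (Nat.succ_pos i)
    rw [Nat.succ_eq_add_one]
    calc F (i + 1) * (i + 1) = S.choose i * F 0 * (S - i) := h1.symm
      _ = (S.choose i * (S - i)) * F 0 := by ring
      _ = (S.choose (i + 1) * (i + 1)) * F 0 := by rw [h2]
      _ = _ := by ring

/-- the classes -/
def Hc {α κ β : Type} (K : ℕ → Finset α) (s : ℕ) (Sl Oc : α → Finset κ) (F : α → β) (v : β)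
    (E : Finset κ) (u i : ℕ) : Finset α :=
  (K (u + s * i)).filter (fun w => F w = v ∧ Sl w = E ∧ (Oc w).card = i)

theorem mem_Hc {α κ β : Type} {K : ℕ → Finset α} {s : ℕ} {Sl Oc : α → Finset κ} {F : α → β}
    {v : β} {E : Finset κ} {u i : ℕ} {w : α} : w ∈ Hc K s Sl Oc F v E u i ↔
      w ∈ K (u + s * i) ∧ F w = v ∧ Sl w = E ∧ (Oc w).card = i := by
  unfold Hc
  rw [mem_filter]

theorem step {α κ β : Type} {K : ℕ → Finset α} {s : ℕ} {Sl Oc : α → Finset κ}
    {on off : α → κ → α} (h : TS K s Sl Oc on off) {F : α → β} (hF : Inv K Sl Oc on F) (v : β)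
    (E : Finset κ) (u i : ℕ) :
    (Hc K s Sl Oc F v E u i).card * (E.card - i) =
      (Hc K s Sl Oc F v E u (i + 1)).card * (i + 1) := by
  have e1 : (Hc K s Sl Oc F v E u i).card * (E.card - i) =
      ((Hc K s Sl Oc F v E u i).sigma (fun w => E \ Oc w)).card := by
    rw [card_sigma, Finset.sum_const_nat (m := E.card - i)]
    intro w hw
    unfold Hc at hw
    rw [mem_filter] at hw
    obtain ⟨h1, -, h4, h5⟩ := hw
    rw [card_sdiff_of_subset, h5]
    rw [← h4]
    exact h.sub _ w h1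
  have e2 : (Hc K s Sl Oc F v E u (i + 1)).card * (i + 1) =
      ((Hc K s Sl Oc F v E u (i + 1)).sigma (fun w => Oc w)).card := by
    rw [card_sigma, Finset.sum_const_nat (m := i + 1)]
    intro w hw
    unfold Hc at hw
    rw [mem_filter] at hw
    exact hw.2.2.2
  rw [e1, e2]
  have hs : u + s * i + s = u + s * (i + 1) := by ring
  refine Finset.card_nbij' (fun x => ⟨on x.1 x.2, x.2⟩) (fun x => ⟨off x.1 x.2, x.2⟩) ?_ ?_ ?_ ?_
  · rintro ⟨w, q⟩ hx
    simp only [coe_sigma, Set.mem_sigma_iff, mem_coe, mem_sdiff, Hc, mem_filter] at hx ⊢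
    obtain ⟨⟨h1, h2, h5, h7⟩, hp1, hp2⟩ := hx
    have hq : q ∈ Sl w := by rw [h5]; exact hp1
    refine ⟨⟨?_, ?_, ?_, ?_⟩, ?_⟩
    · rw [← hs]; exact h.on_K _ w h1 q hq hp2
    · rw [hF _ w h1 q hq hp2, h2]
    · rw [h.on_Sl _ w h1 q hq hp2, h5]
    · rw [h.on_Oc _ w h1 q hq hp2, card_insert_of_notMem hp2, h7]
    · rw [h.on_Oc _ w h1 q hq hp2]
      exact mem_insert_self _ _
  · rintro ⟨w, q⟩ hx
    simp only [coe_sigma, Set.mem_sigma_iff, mem_coe, mem_sdiff, Hc, mem_filter] at hx ⊢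
    obtain ⟨⟨h1, h2, h5, h7⟩, hp⟩ := hx
    obtain ⟨m, hm, hwm⟩ := h.off_K _ w h1 q hp
    have hmu : m = u + s * i := by omega
    rw [hmu] at hwm
    have hSl : Sl (off w q) = Sl w := h.off_Sl _ w h1 q hp
    have hOc : Oc (off w q) = (Oc w).erase q := h.off_Oc _ w h1 q hp
    have hqS : q ∈ Sl w := h.sub _ w h1 hp
    have hqn : q ∉ Oc (off w q) := by rw [hOc]; exact notMem_erase q _
    refine ⟨⟨hwm, ?_, ?_, ?_⟩, ?_, hqn⟩
    · have h9 := hF _ (off w q) hwm q (by rw [hSl]; exact hqS) hqn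
      rw [h.on_off _ w h1 q hp] at h9
      rw [← h9, h2]
    · rw [hSl, h5]
    · rw [hOc, card_erase_of_mem hp]; omega
    · rw [← h5]; exact hqS
  · rintro ⟨w, q⟩ hx
    simp only [coe_sigma, Set.mem_sigma_iff, mem_coe, mem_sdiff, Hc, mem_filter] at hx ⊢
    obtain ⟨⟨h1, -, h5, -⟩, hp1, hp2⟩ := hx
    rw [h.off_on _ w h1 q (by rw [h5]; exact hp1) hp2]
  · rintro ⟨w, q⟩ hx
    simp only [coe_sigma, Set.mem_sigma_iff, mem_coe, mem_sdiff, Hc, mem_filter] at hx ⊢
    obtain ⟨⟨h1, -⟩, hp⟩ := hx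
    rw [h.on_off _ w h1 q hp]

theorem hcard {α κ β : Type} {K : ℕ → Finset α} {s : ℕ} {Sl Oc : α → Finset κ}
    {on off : α → κ → α} (h : TS K s Sl Oc on off) {F : α → β} (hF : Inv K Sl Oc on F) (v : β)
    (E : Finset κ) (u i : ℕ) :
    (Hc K s Sl Oc F v E u i).card = E.card.choose i * (Hc K s Sl Oc F v E u 0).card :=
  binom_of_step (fun i => (Hc K s Sl Oc F v E u i).card) E.card
    (fun i => step h hF v E u i) i

theorem cl : S_CL := by
  intro α κ β K s Sl Oc on off h F hF v E u i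
  exact hcard h hF v E u i

theorem gen {α κ : Type} (K : ℕ → Finset α) (s : ℕ) (Sl Oc : α → Finset κ)
    (on off : α → κ → α) (hs : 1 ≤ s) (h : TS K s Sl Oc on off) (Q : ℕ → ℕ → Prop) (M : ℝ)
    (N N' : ℕ) (σ : ℕ → ℕ) (hM : 0 ≤ M)
    (hσ : ∀ S i, Q S i → i ≤ S → s * i ≤ N → N' + s * i = N + s * σ i ∧
      (S.choose i : ℝ) ≤ M * (S.choose (σ i) : ℝ)) :
    (((K N).filter (fun w => Q (Sl w).card (Oc w).card)).card : ℝ) ≤ M * ((K N').card : ℝ) := by
  obtain ⟨G, hG⟩ : ∃ G, G = (K N).filter (fun w => Q (Sl w).card (Oc w).card) := ⟨_, rfl⟩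
  rw [← hG]
  obtain ⟨ky, hky⟩ : ∃ ky : α → Finset κ × ℕ, ∀ w, ky w = (Sl w, (Oc w).card) :=
    ⟨_, fun _ => rfl⟩
  obtain ⟨C, hC⟩ : ∃ C : Finset κ × ℕ → ℕ → Finset α,
    ∀ x i, C x i = Hc K s Sl Oc (fun _ => ()) () x.1 (N - s * x.2) i := ⟨_, fun _ _ => rfl⟩
  obtain ⟨I, hI⟩ : ∃ I, I = G.image ky := ⟨_, rfl⟩
  have hcls : ∀ x ∈ I, s * x.2 ≤ N ∧ N' + s * x.2 = N + s * σ x.2 ∧
      (x.1.card.choose x.2 : ℝ) ≤ M * (x.1.card.choose (σ x.2) : ℝ) := by
    intro x hx
    rw [hI, mem_image] at hx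
    obtain ⟨w, hw, rfl⟩ := hx
    rw [hG, mem_filter] at hw
    obtain ⟨hw, hq⟩ := hw
    rw [hky]
    have w1 := len K s Sl Oc on off h N w hw
    have w2 : (Oc w).card ≤ (Sl w).card := card_le_card (h.sub N w hw)
    exact ⟨w1, hσ _ _ hq w2 w1⟩
  have hG1 : (G.card : ℝ) ≤ ∑ x ∈ I, ((C x x.2).card : ℝ) := by
    rw [card_eq_sum_card_image ky G, ← hI]
    push_cast
    refine sum_le_sum (fun x hx => ?_)
    have : (G.filter (fun w => ky w = x)).card ≤ (C x x.2).card := by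
      refine card_le_card (fun w hw => ?_)
      rw [mem_filter, hG, mem_filter] at hw
      obtain ⟨⟨hw, hq⟩, rfl⟩ := hw
      obtain ⟨g1, -⟩ := hcls _ hx
      rw [hC, mem_Hc]
      have g2 : s * (Oc w).card ≤ N := by rw [hky] at g1; exact g1
      have e1 : N - s * (Oc w).card + s * (Oc w).card = N := by omega
      refine ⟨?_, rfl, by rw [hky], by rw [hky]⟩
      rw [hky]
      show w ∈ K (N - s * (Oc w).card + s * (Oc w).card)
      rw [e1]
      exact hw
    exact_mod_cast this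
  have hcl : ∀ (x : Finset κ × ℕ) (i : ℕ), (C x i).card = x.1.card.choose i * (C x 0).card := by
    intro x i
    have hI0 : Inv K Sl Oc on (fun _ => ()) := fun _ _ _ _ _ _ => rfl
    rw [hC, hC]
    exact hcard h hI0 () x.1 (N - s * x.2) i
  have h2c : ∀ x ∈ I, ((C x x.2).card : ℝ) ≤ M * ((C x (σ x.2)).card : ℝ) := by
    intro x hx
    obtain ⟨-, -, g⟩ := hcls x hx
    rw [hcl x x.2, hcl x (σ x.2)]
    push_cast
    rw [← mul_assoc]
    exact mul_le_mul_of_nonneg_right g (Nat.cast_nonneg _)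
  have h3c : ∑ x ∈ I, ((C x (σ x.2)).card : ℝ) ≤ ((K N').card : ℝ) := by
    have hT : ∀ x ∈ I, N - s * x.2 + s * σ x.2 = N' := by
      intro x hx
      obtain ⟨g1, g2, -⟩ := hcls x hx
      omega
    have hdisj : ∀ x ∈ I, ∀ x' ∈ I, x ≠ x' → Disjoint (C x (σ x.2)) (C x' (σ x'.2)) := by
      intro x hx x' hx' hne
      rw [Finset.disjoint_left]
      intro w hw hw'
      apply hne
      obtain ⟨-, g2, -⟩ := hcls x hx
      obtain ⟨-, g2', -⟩ := hcls x' hx'
      rw [hC, mem_Hc] at hw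
      rw [hC, mem_Hc] at hw'
      obtain ⟨-, -, a1, a2⟩ := hw
      obtain ⟨-, -, b1, b2⟩ := hw'
      have c2 := a2.symm.trans b2
      refine Prod.ext (a1.symm.trans b1) ?_
      show x.2 = x'.2
      rw [c2] at g2
      have h4 : s * x.2 = s * x'.2 := by omega
      exact Nat.eq_of_mul_eq_mul_left (by omega) h4
    have hun : (I.biUnion (fun x => C x (σ x.2))).card = ∑ x ∈ I, (C x (σ x.2)).card :=
      card_biUnion hdisj
    have hsub : I.biUnion (fun x => C x (σ x.2)) ⊆ K N' := by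
      intro w hw
      rw [mem_biUnion] at hw
      obtain ⟨x, hx, hw⟩ := hw
      rw [hC, mem_Hc, hT x hx] at hw
      exact hw.1
    have := card_le_card hsub
    rw [hun] at this
    exact_mod_cast this
  calc (G.card : ℝ) ≤ ∑ x ∈ I, ((C x x.2).card : ℝ) := hG1
    _ ≤ ∑ x ∈ I, M * ((C x (σ x.2)).card : ℝ) := sum_le_sum h2c
    _ = M * ∑ x ∈ I, ((C x (σ x.2)).card : ℝ) := by rw [Finset.mul_sum]
    _ ≤ _ := mul_le_mul_of_nonneg_left h3c hM

theorem mv : S_MV := by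
  intro α κ K s Sl Oc on off hs h Q M N t hM
  constructor
  · intro hQ
    refine gen K s Sl Oc on off hs h Q M N (N + s * t) (fun i => i + t) hM ?_
    intro S i hq hi _
    exact ⟨by ring, hQ S i hq hi⟩
  · intro hQ
    refine gen K s Sl Oc on off hs h Q M N (N - s * t) (fun i => i - t) hM ?_
    intro S i hq hi h2
    obtain ⟨h3, h4⟩ := hQ S i hq hi
    refine ⟨?_, h4⟩
    have h5 : s * t ≤ s * i := Nat.mul_le_mul_left s h3
    have h6 : s * (i - t) = s * i - s * t := Nat.mul_sub s i t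
    rw [h6]
    omega

end

end Pool.Agent.N691.AO
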